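import Pool.Agent.H21.CA.UDefs
import Pool.Agent.H92.CA.DN

/-!
# MP_ceca85_lc, module UK: the constructible inner model
-/

set_option linter.unusedVariables false

open Ordinal Order Set
open scoped ZFSet

namespace CAU

open SF CAA

namespace UK47

theorem in1 {M : V → Prop} (k : ZFm M) {a : V} (ha : M a) : In M (cons a (fun _ => ∅)) :=
  (show In M (fun _ => ∅) from fun _ => k.mempty).cons ha

theorem in2 {M : V → Prop} (k : ZFm M) {a b : V} (ha : M a) (hb : M b) :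
    In M (cons a (cons b (fun _ => ∅))) := (in1 k hb).cons ha

theorem in3 {M : V → Prop} (k : ZFm M) {a b c : V} (ha : M a) (hb : M b) (hc : M c) :
    In M (cons a (cons b (cons c (fun _ => ∅)))) := (in2 k hb hc).cons ha

theorem M_LA {M : V → Prop} (k : ZFm M) {α : Ordinal.{0}} (h : M α.toZFSet) : M (LA ∅ α) := by
  have := (Tm.LAS Tm.empty (Tm.var 0)).1 M k _ (in1 k h)
  rw [← LAS_ord]
  exact this

theorem M_dm {M : V → Prop} (k : ZFm M) {f : V} (h : M f) : M (dm f) := by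
  have := (Tm.dm (f := fun _ v => v 0) (Tm.var 0)).1 M k _ (in1 k h)
  exact this

theorem M_rg {M : V → Prop} (k : ZFm M) {f : V} (h : M f) : M (rg f) := by
  have := (Tm.rg (f := fun _ v => v 0) (Tm.var 0)).1 M k _ (in1 k h)
  exact this

theorem M_sepsub {M : V → Prop} (k : ZFm M) {y c : V} (hy : M y) (hc : M c) :
    M (y.sep fun z => z ⊆ c) := by
  have := (Tm.sep (f := fun _ v => v 0) (R := fun _ v => v 0 ⊆ v 2)
    (Dfb.subset (Tm.var 0) (Tm.var 2)) (Tm.var 0)).1 M k _ (in2 k hy hc)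
  exact this

theorem M_diag {M : V → Prop} (k : ZFm M) {c f g : V} (hc : M c) (hf : M f) (hg : M g) :
    M (c.sep fun u => ¬ u ∈ app f (app g u)) := by
  have := (Tm.sep (f := fun _ v => v 0) (R := fun _ v => ¬ v 0 ∈ app (v 2) (app (v 3) (v 0)))
    (Dfb.mem (Tm.var 0) (Tm.app (Tm.var 2) (Tm.app (Tm.var 3) (Tm.var 0)))).not
    (Tm.var 0)).1 M k _ (in3 k hc hf hg)
  exact this

theorem M_H {M : V → Prop} (k : ZFm M) {m : V} (hm : M m) : M (resS m fun x => LAS ∅ x) := by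
  have := (Tm.resS (f := fun _ v => v 0) (g := fun _ v => LAS ∅ (v 0)) (Tm.var 0)
    (Tm.LAS Tm.empty (Tm.var 0))).1 M k _ (in1 k hm)
  exact this

theorem dm_eq {x y f : V} (h : ZFSet.IsFunc x y f) : dm f = x := by
  ext a
  rw [mem_dm]
  constructor
  · rintro ⟨b, hb⟩
    exact (ZFSet.pair_mem_prod.1 (h.1 hb)).1
  · intro ha
    obtain ⟨b, hb, -⟩ := h.2 a ha
    exact ⟨b, hb⟩

/-- the ordinals of a transitive set -/
theorem height {W : V} (k : ZFm (· ∈ W)) :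
    ∃ θ : Ordinal.{0}, ∀ α : Ordinal.{0}, α.toZFSet ∈ W ↔ α < θ := by
  have hne : ({α | α.toZFSet ∉ W} : Set Ordinal.{0}).Nonempty := by
    refine ⟨W.rank, fun h => ?_⟩
    have := ZFSet.rank_lt_of_mem h
    rw [rank_toZFSet] at this
    exact lt_irrefl _ this
  refine ⟨sInf {α | α.toZFSet ∉ W}, fun α => ⟨fun h => ?_, fun h => ?_⟩⟩
  · by_contra hcon
    push Not at hcon
    exact csInf_mem hne (k.mle h hcon)
  · by_contra hcon
    exact absurd (csInf_le' (s := {α : Ordinal.{0} | α.toZFSet ∉ W}) hcon) (not_le.2 h)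

/-- every set of a model of `ZFC` has an ordinal which is not an image -/
theorem cantor {M : V → Prop} (hZ : ZFC M) {C : V} (hC : M C) :
    ∃ α : Ordinal.{0}, M α.toZFSet ∧ ¬ Sm M C α.toZFSet := by
  have k : ZFm M := hZ.toZFCm.toZFm
  obtain ⟨y, hy, hpow⟩ := hZ.pow C hC
  have hP := M_sepsub k hy hC
  set P := y.sep fun z => z ⊆ C with hPd
  have hPm : ∀ z, M z → z ⊆ C → z ∈ P := fun z hz hzC => ZFSet.mem_sep.2 ⟨hpow z hz hzC, hzC⟩
  obtain ⟨α, f, hf, hon⟩ := hZ.wo P hP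
  refine ⟨α, ?_, ?_⟩
  · rw [← dm_eq hon.1]
    exact M_dm k hf
  · have hE : (∅ : V) ∈ P := hPm _ k.mempty (ZFSet.empty_subset _)
    rintro (h0 | ⟨g, hg, hgo⟩)
    · obtain ⟨a, ha, -⟩ := hon.2 _ hE
      rw [h0] at ha
      exact ZFSet.notMem_empty _ ha
    · have hD := hPm _ (M_diag k hC hf hg) (fun z hz => (ZFSet.mem_sep.1 hz).1)
      set D := C.sep fun u => ¬ u ∈ app f (app g u) with hDd
      obtain ⟨a, ha, haD⟩ := hon.2 D hD
      obtain ⟨u, hu, hua⟩ := hgo.2 a ha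
      have e1 : app g u = a := app_eq (svl_of_isFunc hgo.1) hua
      have e2 : app f a = D := app_eq (svl_of_isFunc hon.1) haD
      have h3 : u ∈ D ↔ u ∈ C ∧ ¬ u ∈ app f (app g u) := ZFSet.mem_sep
      rw [e1, e2] at h3
      tauto

/-- the least ordinal which is not an image -/
theorem least {M : V → Prop} (hZ : ZFC M) {C : V} (hC : M C) :
    ∃ μ : Ordinal.{0}, M μ.toZFSet ∧ ¬ Sm M C μ.toZFSet ∧ ∀ δ < μ, Sm M C δ.toZFSet := by
  have k : ZFm M := hZ.toZFCm.toZFm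
  have hne : ({α | M α.toZFSet ∧ ¬ Sm M C α.toZFSet} : Set Ordinal.{0}).Nonempty := cantor hZ hC
  obtain ⟨h1, h2⟩ := csInf_mem hne
  refine ⟨_, h1, h2, fun δ hδ => ?_⟩
  by_contra hcon
  exact absurd (csInf_le' (s := {α : Ordinal.{0} | M α.toZFSet ∧ ¬ Sm M C α.toZFSet})
    ⟨k.mle h1 hδ.le, hcon⟩) (not_le.2 hδ)

/-- levels which are models -/
theorem level (hDM : T_DM) (hDH : T_DH) (hDF : T_DF) (hGB : T_GB) (hGC : T_GC) {M : V → Prop}
    (hZ : ZFC M) {ρ : Ordinal.{0}} (hρ : M ρ.toZFSet) :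
    ∃ μ : Ordinal.{0}, ρ < μ ∧ M μ.toZFSet ∧ ZFm (· ∈ LA ∅ μ) := by
  have k : ZFm M := hZ.toZFCm.toZFm
  have hωM : M (ω : Ordinal.{0}).toZFSet := k.inf
  have hm : M (max ρ ω).toZFSet := by
    rcases le_total ρ ω with h | h
    · rwa [max_eq_right h]
    · rwa [max_eq_left h]
  have h1 : M (max ρ ω + ω).toZFSet := by
    have h1 := SF.H68.aLAR.1.1 M k (cons (max ρ ω).toZFSet fun _ => om) (by
      intro i
      cases i with
      | zero => exact hm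
      | succ i => exact hωM)
    have h2 : (((cons (max ρ ω).toZFSet fun _ => om) 0).rank +
        ((cons (max ρ ω).toZFSet fun _ => om) 1).rank : Ordinal.{0}) = max ρ ω + ω := by
      rw [cons_zero]
      show (max ρ ω).toZFSet.rank + (ω : Ordinal.{0}).toZFSet.rank = _
      rw [rank_toZFSet, rank_toZFSet]
    simp only [h2] at h1
    exact h1
  have hlim : IsSuccLimit (max ρ ω + ω) := Ordinal.isSuccLimit_add _ isSuccLimit_omega0
  set γ : Ordinal.{0} := max ρ ω + ω with hγ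
  have hmγ : max ρ ω < γ := lt_add_of_pos_right _ omega0_pos
  have hωγ : ω < γ := (le_max_right _ _).trans_lt hmγ
  have hργ : ρ < γ := (le_max_left _ _).trans_lt hmγ
  have hG : Gd (LA ∅ γ) := hGC γ hlim hωγ
  have hCM : M (LA ∅ γ) := M_LA k h1
  obtain ⟨μ, hμM, hμ1, hμ2⟩ := least hZ hCM
  obtain ⟨d1, d2, d3⟩ := hDH M hZ.toZFCm (LA ∅ γ) hCM hG μ hμM hμ2 hμ1
  have hρμ : ρ < μ := d1 ρ ((ord_sub_Lh dn_empty_tr ρ).2 γ hργ)
  have hωμ : ω < μ := d1 ω ((ord_sub_Lh dn_empty_tr ω).2 γ hωγ)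
  obtain ⟨f1, f2, f3, f4, f5, f6, f7, -⟩ := hDF M k (LA ∅ γ) hCM hG
  have happ : ∀ α < μ, app (resS μ.toZFSet fun x => LAS ∅ x) α.toZFSet = LA ∅ α := by
    intro α hα
    rw [app_resS (toZFSet_mem_toZFSet_iff.2 hα), LAS_ord]
  obtain ⟨-, -, hz, -⟩ := hDM M hZ.toZFCm μ (resS μ.toZFSet fun x => LAS ∅ x) (LA ∅ μ)
    (M_H k hμM) hμM hωμ d3
    (fun α hα => by rw [happ α hα]; exact Lh_isTransitive dn_empty_tr α)
    (fun α hα => by
      rw [happ α hα, happ _ (d3.succ_lt hα)]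
      exact Def_Lh_sub (lt_succ α))
    (fun α β hαβ hβ => by
      rw [happ β hβ, happ α (hαβ.trans_lt hβ)]
      exact Lh_mono hαβ)
    (fun g hg hl x hx => by
      rw [happ g hg] at hx
      obtain ⟨β, hβ, hx'⟩ := (mem_Lh_limit hl).1 hx
      refine ⟨β, hβ, ?_⟩
      rw [happ β (hβ.trans hg)]
      exact hx')
    (fun α hα f hf hfun => by
      rw [happ α hα] at hfun ⊢
      have hs : Sm M (LA ∅ γ) (LA ∅ α) :=
        hGB M hZ.toZFCm (LA ∅ γ) hCM hG α (k.mle hμM hα.le) (hμ2 α hα)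
      have hs2 : Sm M (LA ∅ γ) (rg f) := f7 _ f hs hf (svl_of_isFunc hfun) (dm_eq hfun)
      have hsub : rg f ⊆ μ.toZFSet := by
        intro y hy
        obtain ⟨x, hx⟩ := mem_rg.1 hy
        exact (ZFSet.pair_mem_prod.1 (hfun.1 hx)).2
      obtain ⟨g, hg, hg2⟩ := d2 (rg f) (M_rg k hf) hs2 hsub
      exact ⟨g, hg, fun x hx => hg2 (mem_rg.2 ⟨x, pair_app_mem hfun hx⟩)⟩)
    (fun x => by
      rw [show LA ∅ μ = Lh ∅ ∅ μ from rfl, mem_Lh_limit d3]
      refine exists_congr fun β => and_congr_right fun hβ => ?_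
      rw [happ β hβ]
      exact Iff.rfl)
  exact ⟨μ, hρμ, hμM, hz⟩

end UK47

open UK47 in
theorem pf_UK (hDU : T_DU) (hDQ : T_DQ) (hDM : T_DM) (hDH : T_DH) (hDF : T_DF) (hDO : T_DO)
    (hGB : T_GB) (hGC : T_GC) : T_UK := by
  intro W κ hW hZ _ hin
  have k : ZFm (· ∈ W) := hZ.toZFCm.toZFm
  obtain ⟨θ, hθ⟩ := height k
  obtain ⟨hlim, hsub, hzθ, hord, hz⟩ := hDU (· ∈ W) ∅ θ k k.mempty hθ
  obtain ⟨h0, hzc⟩ := hz (fun x hx => absurd hx (ZFSet.notMem_empty x))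
  have hin' : Inac (· ∈ LA ∅ θ) κ := hDQ (· ∈ W) ∅ κ θ hZ.toZFCm k.mempty hθ h0 hin
  obtain ⟨_, _, _, _, hκlim, _⟩ := hDO (· ∈ W) κ hZ.toZFCm hin
  have hG : Gd (LA ∅ κ) := hGC κ hκlim hin.unc
  have hCM : LA ∅ κ ∈ W := M_LA k hin.mem
  obtain ⟨χ, hχM, hχ1, hχ2⟩ := least hZ hCM
  obtain ⟨f1, f2, -⟩ := hDF (· ∈ W) k (LA ∅ κ) hCM hG
  have hκχ : κ < χ := by
    by_contra hcon
    push Not at hcon
    refine hχ1 (f2 _ hχM ?_)
    intro x hx
    exact (ord_sub_Lh dn_empty_tr κ).1 (toZFSet_subset_toZFSet_iff.2 hcon hx)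
  refine ⟨κ, χ, θ, hW.mono fun x hx => hsub x hx, hzc, hord, hlim, ?_, hκχ, (hθ χ).1 hχM, hin', ?_⟩
  · intro ρ hρ
    obtain ⟨μ, h1, h2, h3⟩ := level hDM hDH hDF hGB hGC hZ ((hθ ρ).2 hρ)
    exact ⟨μ, h1, (hθ μ).1 h2, h3⟩
  · intro f hf hon
    exact hχ1 (Or.inr ⟨f, hsub f hf, hon⟩)

end CAU
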