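import Pool.Agent.H9.CA.Tool

/-!
# MP_ceca85_lc, module DZ: the class `CA N` for a set `N`
-/

open Ordinal Order Set
open scoped ZFSet

namespace CAA

open SF

theorem pf_DZ (hDX : T_DX) : T_DZ := by
  intro N κ hκ hN x
  obtain ⟨h1, _, h3, _⟩ := hDX (· ∈ N)
  constructor
  · rintro ⟨α, hα, hx⟩
    exact h1 α κ ((hN α).1 hα).le hx
  · intro hx
    obtain ⟨β, hβ, hx'⟩ := h3 κ hκ x hx
    exact ⟨β, (hN β).2 hβ, hx'⟩

end CAA
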