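import Pool.Agent.H9.CA.TarQ

/-!
# MP_ceca85_lc, module QI: the lower bound
-/

set_option linter.unusedVariables false

open Ordinal Order Set
open scoped ZFSet

namespace CAA

open SF

namespace QI47

/-- `j` codes `z` on level `b` -/
def Cod (tf b j z : V) : Prop :=
  fst z ∈ j ∧ app tf j = ZFSet.pair b (ZFSet.pair (nS 1) z)

theorem dfb_Cod {f g h i : (V → Prop) → (ℕ → V) → V} (hf : Tm ZFm f) (hg : Tm ZFm g)
    (hh : Tm ZFm h) (hi : Tm ZFm i) :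
    Dfb ZFm (fun M v => Cod (f M v) (g M v) (h M v) (i M v)) :=
  (Dfb.mem (Tm.fst hi) hh).and
    (Dfb.eq (Tm.app hf hh) (Tm.pair hg (Tm.pair (Tm.nS 1) hi)))

/-- the pairs below `l` that are coded -/
noncomputable def S0 (S l κ tf b : V) : V :=
  S.sep fun z => fst z ∈ l ∧ ∃ j ∈ κ, Cod tf b j z

theorem tm_S0 : Tm ZFm (fun _ v => S0 (v 0) (v 1) (v 2) (v 3) (v 4)) := by
  refine (Tm.sep (f := fun _ v => v 0)
    (R := fun _ v => fst (v 0) ∈ v 2 ∧ ∃ j ∈ v 3, Cod (v 4) (v 5) j (v 0)) ?_ (Tm.var 0)).congr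
    fun M k v hv => rfl
  refine (Dfb.mem (Tm.fst (Tm.var 0)) (Tm.var 2)).and ?_
  exact (Dfb.bex (R := fun _ v => Cod (v 5) (v 6) (v 0) (v 1)) ktr_zfm (Tm.var 3)
    (dfb_Cod (Tm.var 5) (Tm.var 6) (Tm.var 0) (Tm.var 1))).congr fun M k v hv => Iff.rfl

/-- the least code -/
noncomputable def fS (S l κ tf b : V) : V :=
  (ZFSet.prod (S0 S l κ tf b) κ).sep fun p => Cod tf b (snd p) (fst p) ∧
    ∀ j ∈ snd p, ¬ Cod tf b j (fst p)

theorem tm_fS : Tm ZFm (fun _ v => fS (v 0) (v 1) (v 2) (v 3) (v 4)) := by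
  refine (Tm.sep (f := fun _ v => ZFSet.prod (S0 (v 0) (v 1) (v 2) (v 3) (v 4)) (v 2))
    (R := fun _ v => Cod (v 4) (v 5) (snd (v 0)) (fst (v 0)) ∧
      ∀ j ∈ snd (v 0), ¬ Cod (v 4) (v 5) j (fst (v 0))) ?_ (Tm.prod tm_S0 (Tm.var 2))).congr
    fun M k v hv => rfl
  refine (dfb_Cod (Tm.var 4) (Tm.var 5) (Tm.snd (Tm.var 0)) (Tm.fst (Tm.var 0))).and ?_
  exact (Dfb.ball (R := fun _ v => ¬ Cod (v 5) (v 6) (v 0) (fst (v 1))) ktr_zfm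
    (Tm.snd (Tm.var 0)) (dfb_Cod (Tm.var 5) (Tm.var 6) (Tm.var 0) (Tm.fst (Tm.var 1))).not).congr
    fun M k v hv => Iff.rfl

/-- the pairs `(j, z)` such that `j` codes `z` -/
noncomputable def TS (S l tf b : V) : V :=
  (ZFSet.prod l S).sep fun p => Cod tf b (fst p) (snd p)

theorem tm_TS : Tm ZFm (fun _ v => TS (v 0) (v 1) (v 2) (v 3)) :=
  (Tm.sep (f := fun _ v => ZFSet.prod (v 1) (v 0))
    (R := fun _ v => Cod (v 3) (v 4) (fst (v 0)) (snd (v 0)))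
    (dfb_Cod (Tm.var 3) (Tm.var 4) (Tm.fst (Tm.var 0)) (Tm.snd (Tm.var 0)))
    (Tm.prod (Tm.var 1) (Tm.var 0))).congr fun M k v hv => rfl

/-- nodes of level greater than `b` -/
noncomputable def US (l tf b : V) : V := l.sep fun i => b ∈ fst (app tf i)

theorem tm_US : Tm ZFm (fun _ v => US (v 0) (v 1) (v 2)) :=
  (Tm.sep (f := fun _ v => v 0) (R := fun _ v => v 3 ∈ fst (app (v 2) (v 0)))
    (Dfb.mem (Tm.var 3) (Tm.fst (Tm.app (Tm.var 2) (Tm.var 0)))) (Tm.var 0)).congr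
    fun M k v hv => rfl

/-- the set that is decoded -/
noncomputable def aK (S l A U T : V) : V := S.sep fun z => fst z ∈ l ∧ IsPr z ∧ fst z ∈ A ∧
  fst z ∈ U ∧ ∃ j ∈ A, ZFSet.pair j z ∈ T

theorem tm_aK : Tm ZFm (fun _ v => aK (v 0) (v 1) (v 2) (v 3) (v 4)) := by
  refine (Tm.sep (f := fun _ v => v 0)
    (R := fun _ v => fst (v 0) ∈ v 2 ∧ IsPr (v 0) ∧ fst (v 0) ∈ v 3 ∧ fst (v 0) ∈ v 4 ∧
      ∃ j ∈ v 3, ZFSet.pair j (v 0) ∈ v 5) ?_ (Tm.var 0)).congr fun M k v hv => rfl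
  have h1 : Tm ZFm (fun _ v => fst (v 0)) := Tm.fst (Tm.var 0)
  refine (Dfb.mem h1 (Tm.var 2)).and ((Dfb.isPr (Tm.var 0)).and
    ((Dfb.mem h1 (Tm.var 3)).and ((Dfb.mem h1 (Tm.var 4)).and ?_)))
  exact (Dfb.bex (R := fun _ v => ZFSet.pair (v 0) (v 1) ∈ v 6) ktr_zfm (Tm.var 3)
    (Dfb.pairMem (Tm.var 0) (Tm.var 1) (Tm.var 6))).congr fun M k v hv => Iff.rfl

section mems

variable {M : V → Prop} (k : ZFm M)

include k

theorem in1 {a : V} (ha : M a) : In M (cons a (fun _ => ∅)) :=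
  (show In M (fun _ => ∅) from fun _ => k.mempty).cons ha

theorem in2 {a b : V} (ha : M a) (hb : M b) : In M (cons a (cons b (fun _ => ∅))) :=
  (in1 k hb).cons ha

theorem in3 {a b c : V} (ha : M a) (hb : M b) (hc : M c) :
    In M (cons a (cons b (cons c (fun _ => ∅)))) := (in2 k hb hc).cons ha

theorem in4 {a b c d : V} (ha : M a) (hb : M b) (hc : M c) (hd : M d) :
    In M (cons a (cons b (cons c (cons d (fun _ => ∅))))) := (in3 k hb hc hd).cons ha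

theorem in5 {a b c d e : V} (ha : M a) (hb : M b) (hc : M c) (hd : M d) (he : M e) :
    In M (cons a (cons b (cons c (cons d (cons e (fun _ => ∅)))))) := (in4 k hb hc hd he).cons ha

theorem S0_mem {S l κ tf b : V} (h1 : M S) (h2 : M l) (h3 : M κ) (h4 : M tf) (h5 : M b) :
    M (S0 S l κ tf b) := by
  have h := tm_S0.1 M k _ (in5 k h1 h2 h3 h4 h5)
  exact h

theorem fS_mem {S l κ tf b : V} (h1 : M S) (h2 : M l) (h3 : M κ) (h4 : M tf) (h5 : M b) :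
    M (fS S l κ tf b) := by
  have h := tm_fS.1 M k _ (in5 k h1 h2 h3 h4 h5)
  exact h

theorem TS_mem {S l tf b : V} (h1 : M S) (h2 : M l) (h3 : M tf) (h4 : M b) :
    M (TS S l tf b) := by
  have h := tm_TS.1 M k _ (in4 k h1 h2 h3 h4)
  exact h

theorem US_mem {l tf b : V} (h1 : M l) (h2 : M tf) (h3 : M b) :
    M (US l tf b) := by
  have h := tm_US.1 M k _ (in3 k h1 h2 h3)
  exact h

theorem aK_mem {S l A U T : V} (h1 : M S) (h2 : M l) (h3 : M A) (h4 : M U) (h5 : M T) :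
    M (aK S l A U T) := by
  have h := tm_aK.1 M k _ (in5 k h1 h2 h3 h4 h5)
  exact h

theorem prod_mem {a b : V} (h1 : M a) (h2 : M b) : M (ZFSet.prod a b) := by
  have := (Tm.prod (Tm.var 0) (Tm.var 1)).1 M k _ (in2 k h1 h2)
  exact this

theorem singp_mem {a b : V} (h1 : M a) (h2 : M b) : M ({ZFSet.pair a b} : V) := by
  have := (Tm.sing (Tm.pair (Tm.var 0) (Tm.var 1))).1 M k _ (in2 k h1 h2)
  exact this

theorem LA_mem' {a : V} {α : Ordinal.{0}} (h1 : M a) (h2 : M α.toZFSet) : M (LA a α) := by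
  have := (Tm.LAS (Tm.var 0) (Tm.var 1)).1 M k _ (in2 k h1 h2)
  rw [← LAS_ord]
  exact this

end mems

/-- activity of a code depends only on what is coded -/
theorem transfer {κ t X H b i q j j' : V} (hj : j ∈ As κ t X H b) (hj' : j' ∈ κ)
    (h1 : app t j = ZFSet.pair b (ZFSet.pair (nS 1) (ZFSet.pair i q)))
    (h2 : Cod t b j' (ZFSet.pair i q)) : j' ∈ As κ t X H b := by
  obtain ⟨h3, h4⟩ := h2
  rw [fst_pair] at h3
  unfold As at hj ⊢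
  rw [ZFSet.mem_sep] at hj ⊢
  obtain ⟨_, hac, _⟩ := hj
  have e1 : fst (app t j) = b := by rw [h1, fst_pair]
  have e2 : snd (app t j) = ZFSet.pair (nS 1) (ZFSet.pair i q) := by rw [h1, snd_pair]
  have e3 : fst (app t j') = b := by rw [h4, fst_pair]
  have e4 : snd (app t j') = ZFSet.pair (nS 1) (ZFSet.pair i q) := by rw [h4, snd_pair]
  refine ⟨hj', ?_, by rw [e3]⟩
  cases hac with
  | z _ h => rw [e2] at h; exact absurd h (pair_ne_empty _ _)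
  | s _ i' q' h h5 h6 h7 h8 =>
    rw [e2, ZFSet.pair_inj, ZFSet.pair_inj] at h
    obtain ⟨_, rfl, rfl⟩ := h
    refine Ac.s j' i q e4 h3 ?_ h7 h8
    rw [e3]
    rwa [e1] at h6
  | h _ p h h5 =>
    rw [e2, ZFSet.pair_inj] at h
    exact absurd (nS_inj.1 h.1) (by norm_num)

/-- initial segments of the set of the generic objects of level greater than `β` -/
theorem seg_mem (hM1 : F_M1) (hM6 : F_M6) (hQH : T_QH) (hGH : T_GH) (D : Dat) (G : V)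
    (β : Ordinal.{0}) (hD : D.Ok) (hG : Gen D.M D.c D.r G) (hβ : succ β < D.κ)
    (hK : ZFm (· ∈ La (· ∈ D.N G β) D.κ)) (hKL : ∀ x ∈ LA ∅ D.κ, x ∈ La (· ∈ D.N G β) D.κ)
    (l : Ordinal.{0}) (hl : l < D.κ) :
    ((D.a G (succ β)).sep fun z => fst z ∈ l.toZFSet) ∈ La (· ∈ D.N G β) D.κ := by
  classical
  have hβ' : β < D.κ := lt_trans (Order.lt_succ β) hβ
  have hκ := hD.grd.zκ
  have hθ : ZFm (· ∈ LA ∅ D.θ) := hD.grd.zfc.toZFm
  obtain ⟨hω, hlim, hord⟩ := hGH D hD |>.2.2 D.κ hκ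
  have hχθ : ∀ x ∈ LA ∅ D.χ, x ∈ LA ∅ D.θ := fun x hx =>
    hθ.trans _ (LA_mem' hθ hθ.mempty ((hD.grd.ord _).2 hD.grd.χθ)) x hx
  have hκθ' : D.κ < D.θ := hD.grd.κχ.trans hD.grd.χθ
  have hκθ : ∀ x ∈ LA ∅ D.κ, x ∈ LA ∅ D.θ := fun x hx =>
    hθ.trans _ (LA_mem' hθ hθ.mempty ((hD.grd.ord _).2 hκθ')) x hx
  have htf : D.tf ∈ LA ∅ D.θ := hχθ _ hD.tM
  set b : V := β.toZFSet with hb
  have hbκ : b ∈ LA ∅ D.κ := (hord β).2 hβ'
  set S : V := LA ∅ (D.γ l) with hS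
  have hSκ : S ∈ LA ∅ D.κ := LA_mem' hκ hκ.mempty ((hord _).2 (hD.sz.γκ l hl))
  have hlκ : l.toZFSet ∈ LA ∅ D.κ := (hord l).2 hl
  have hκM : D.κ.toZFSet ∈ LA ∅ D.θ := (hD.grd.ord _).2 hκθ'
  -- the set of the coded pairs and the function
  have hS0θ : S0 S l.toZFSet D.κ.toZFSet D.tf b ∈ LA ∅ D.θ :=
    S0_mem hθ (hκθ _ hSκ) (hκθ _ hlκ) hκM htf (hκθ _ hbκ)
  have hS0κ : S0 S l.toZFSet D.κ.toZFSet D.tf b ∈ LA ∅ D.κ :=
    hD.grd.subκ S hSκ _ hS0θ fun z hz => (ZFSet.mem_sep.1 hz).1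
  have hfθ : fS S l.toZFSet D.κ.toZFSet D.tf b ∈ LA ∅ D.θ :=
    fS_mem hθ (hκθ _ hSκ) (hκθ _ hlκ) hκM htf (hκθ _ hbκ)
  have hfun : ZFSet.IsFunc (S0 S l.toZFSet D.κ.toZFSet D.tf b) D.κ.toZFSet
      (fS S l.toZFSet D.κ.toZFSet D.tf b) := by
    refine ⟨fun z hz => (ZFSet.mem_sep.1 hz).1, fun z hz => ?_⟩
    obtain ⟨_, _, j, hj, hcj⟩ := ZFSet.mem_sep.1 hz
    obtain ⟨ξ, hξ, rfl⟩ := Ordinal.mem_toZFSet_iff.1 hj
    -- the least code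
    have hne : ({ζ | Cod D.tf b ζ.toZFSet z} : Set Ordinal.{0}).Nonempty := ⟨ξ, hcj⟩
    have h1 := csInf_mem hne
    set ζ := sInf {ζ : Ordinal.{0} | Cod D.tf b ζ.toZFSet z} with hζ
    have h2 : ζ < D.κ := lt_of_le_of_lt (csInf_le' hcj) hξ
    have hmin : ∀ η : Ordinal.{0}, Cod D.tf b η.toZFSet z → ζ ≤ η := fun η h => csInf_le' h
    refine ⟨ζ.toZFSet, ?_, ?_⟩
    · refine ZFSet.mem_sep.2 ⟨ZFSet.pair_mem_prod.2 ⟨hz, toZFSet_mem_toZFSet_iff.2 h2⟩, ?_, ?_⟩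
      · rw [snd_pair, fst_pair]; exact h1
      · rw [snd_pair, fst_pair]
        intro j hj hcj'
        obtain ⟨η, hη, rfl⟩ := Ordinal.mem_toZFSet_iff.1 hj
        exact absurd (hmin η hcj') (not_le.2 hη)
    · intro y hy
      obtain ⟨hy1, hy2, hy3⟩ := ZFSet.mem_sep.1 hy
      rw [snd_pair, fst_pair] at hy2 hy3
      obtain ⟨_, hyκ⟩ := ZFSet.pair_mem_prod.1 hy1
      obtain ⟨η, hη, rfl⟩ := Ordinal.mem_toZFSet_iff.1 hyκ
      have h4 : ζ ≤ η := hmin η hy2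
      rcases h4.eq_or_lt with h5 | h5
      · rw [h5]
      · exact absurd h1 (hy3 _ (toZFSet_mem_toZFSet_iff.2 h5))
  obtain ⟨g, hg, hgb⟩ := hD.grd.regκ _ hS0κ _ hfθ hfun
  set l' : Ordinal.{0} := max l g with hl'
  have hl'κ : l' < D.κ := max_lt hl hg
  have hl'L : l'.toZFSet ∈ LA ∅ D.κ := (hord l').2 hl'κ
  have hA := hQH D G β hD hG hβ' l' hl'κ
  set A : V := D.A G β ∩ l'.toZFSet with hAdef
  -- the two auxiliary sets
  have hTθ : TS S l'.toZFSet D.tf b ∈ LA ∅ D.θ :=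
    TS_mem hθ (hκθ _ hSκ) (hκθ _ hl'L) htf (hκθ _ hbκ)
  have hTκ : TS S l'.toZFSet D.tf b ∈ LA ∅ D.κ := by
    exact hD.grd.subκ (ZFSet.prod l'.toZFSet S) (prod_mem hκ hl'L hSκ) _ hTθ
      fun z hz => (ZFSet.mem_sep.1 hz).1
  have hUθ : US l'.toZFSet D.tf b ∈ LA ∅ D.θ := US_mem hθ (hκθ _ hl'L) htf (hκθ _ hbκ)
  have hUκ : US l'.toZFSet D.tf b ∈ LA ∅ D.κ :=
    hD.grd.subκ l'.toZFSet hl'L _ hUθ fun z hz => (ZFSet.mem_sep.1 hz).1
  have hres : aK S l.toZFSet A (US l'.toZFSet D.tf b) (TS S l'.toZFSet D.tf b) ∈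
      La (· ∈ D.N G β) D.κ :=
    aK_mem hK (hKL _ hSκ) (hKL _ hlκ) hA (hKL _ hUκ) (hKL _ hTκ)
  convert hres using 1
  ext z
  rw [ZFSet.mem_sep]
  unfold aK
  rw [ZFSet.mem_sep]
  obtain ⟨_, _, _, _, _, _, _, hpairs⟩ := hM1 D G (succ β) hD hG hβ
  constructor
  · rintro ⟨hz, hzl⟩
    obtain ⟨i, hi, q, hq, hqμ, rfl⟩ := hpairs z hz
    rw [fst_pair] at hzl ⊢
    have hil : i < l := toZFSet_mem_toZFSet_iff.1 hzl
    -- membership in `S`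
    have hzS : ZFSet.pair i.toZFSet q ∈ S := by
      have h1 : ({ZFSet.pair i.toZFSet q} : V) ∈ LA ∅ (D.γ l) := by
        refine hD.sz.pow2 l hl _ ?_ ?_
        · exact singp_mem hθ (hκθ _ ((hord i).2 hi)) (hκθ _ hq)
        · intro z hz
          rw [ZFSet.mem_singleton] at hz
          exact ⟨i, hil, q, hκθ _ hq, hqμ, hz⟩
      exact (hD.sz.zγ l hl).trans _ h1 _ (ZFSet.mem_singleton.2 rfl)
    obtain ⟨i', q', he, hiA, hbt, _, j, hjA, hij, hjt⟩ := (hM6 D G β hD hG hβ' _).1 hz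
    rw [ZFSet.pair_inj] at he
    obtain ⟨rfl, rfl⟩ := he
    have hil' : i.toZFSet ∈ l'.toZFSet :=
      toZFSet_mem_toZFSet_iff.2 (hil.trans_le (le_max_left _ _))
    have hjκ : j ∈ D.κ.toZFSet := by
      have h := hjA
      unfold Dat.A As at h
      exact (ZFSet.mem_sep.1 h).1
    have hz0 : ZFSet.pair i.toZFSet q ∈ S0 S l.toZFSet D.κ.toZFSet D.tf b :=
      ZFSet.mem_sep.2 ⟨hzS, by rw [fst_pair]; exact hzl, j, hjκ, by rw [fst_pair]; exact hij,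
        hjt⟩
    have h2 := pair_app_mem hfun hz0
    have h3 := hgb _ hz0
    set j0 := app (fS S l.toZFSet D.κ.toZFSet D.tf b) (ZFSet.pair i.toZFSet q) with hj0
    obtain ⟨h4, h5, _⟩ := ZFSet.mem_sep.1 h2
    rw [snd_pair, fst_pair] at h5
    have hj0κ : j0 ∈ D.κ.toZFSet := (ZFSet.pair_mem_prod.1 h4).2
    have hj0A : j0 ∈ D.A G β := transfer hjA hj0κ hjt h5
    have hj0l' : j0 ∈ l'.toZFSet := by
      obtain ⟨η, hη, he⟩ := Ordinal.mem_toZFSet_iff.1 h3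
      rw [← he]
      exact toZFSet_mem_toZFSet_iff.2 (hη.trans_le (le_max_right _ _))
    refine ⟨hzS, hzl, ⟨_, _, rfl⟩, ZFSet.mem_inter.2 ⟨hiA, hil'⟩,
      ZFSet.mem_sep.2 ⟨hil', hbt⟩, j0, ZFSet.mem_inter.2 ⟨hj0A, hj0l'⟩, ?_⟩
    refine ZFSet.mem_sep.2 ⟨ZFSet.pair_mem_prod.2 ⟨hj0l', hzS⟩, ?_⟩
    rw [snd_pair, fst_pair]
    exact h5
  · rintro ⟨hzS, hzl, ⟨i, q, rfl⟩, hiA, hiU, j, hjA, hjT⟩
    rw [fst_pair] at hzl hiA hiU ⊢
    refine ⟨?_, hzl⟩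
    obtain ⟨_, h5⟩ := ZFSet.mem_sep.1 hjT
    rw [snd_pair, fst_pair] at h5
    obtain ⟨h6, h7⟩ := h5
    rw [fst_pair] at h6
    refine (hM6 D G β hD hG hβ' _).2 ⟨i, q, rfl, (ZFSet.mem_inter.1 hiA).1,
      (ZFSet.mem_sep.1 hiU).2, ?_, j, (ZFSet.mem_inter.1 hjA).1, h6, h7⟩
    exact (hκ.of_pair (hκ.trans _ hSκ _ hzS)).2

end QI47

open QI47 in
theorem pf_QI (hM1 : F_M1) (hM6 : F_M6) (hQB : T_QB) (hQH : T_QH) (hDR : T_DR) (hGH : T_GH) :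
    T_QI := by
  intro D G β hD hG hβ x hx
  have hβ' : β < D.κ := lt_trans (Order.lt_succ β) hβ
  obtain ⟨_, hz0, _, _, _, hin0, _, _⟩ := hM1 D G β hD hG hβ'
  have hvk : IsVk (· ∈ D.B G β) D.κ (D.N G β) := fun y => ZFSet.mem_sep
  obtain ⟨_, _, hK, hKord, hKL⟩ := hQB (· ∈ D.B G β) D.κ (D.N G β) hz0 hin0 hvk
  obtain ⟨_, hz1, _, _, ha1, hin1, hunb1, hpairs⟩ := hM1 D G (succ β) hD hG hβ
  obtain ⟨_, hlim, _⟩ := hGH D hD |>.2.2 D.κ hD.grd.zκ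
  obtain ⟨hxB, hxr⟩ := ZFSet.mem_sep.1 hx
  obtain ⟨l, hl, g, hg, hxl⟩ := hDR (D.a G (succ β)) D.κ D.θ hz1 ha1 hin1 hunb1
    (fun z hz => by
      obtain ⟨i, hi, q, _, _, h⟩ := hpairs z hz
      exact ⟨i, hi, q, h⟩)
    (fun i hi => by
      refine ⟨succ (D.μ i), hlim.succ_lt (hD.sz.μκ i hi), fun q hq => ?_⟩
      obtain ⟨i', hi', q', _, hqμ, h⟩ := hpairs _ hq
      rw [ZFSet.pair_inj] at h
      obtain ⟨h1, rfl⟩ := h
      have h2 : i = i' := toZFSet_injective h1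
      subst h2
      rw [Order.lt_succ_iff, ← rank_toZFSet (D.μ i)]
      exact ZFSet.rank_mono hqμ) x hxB hxr
  have hseg := seg_mem hM1 hM6 hQH hGH D G β hD hG hβ hK hKL l hl
  have hLA : LA ((D.a G (succ β)).sep fun z => fst z ∈ l.toZFSet) g ∈ La (· ∈ D.N G β) D.κ :=
    LA_mem' hK hseg ((hKord g).2 hg)
  exact hK.trans _ hLA _ hxl

end CAA
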